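import Pool.Agent.Lib.helper29.Pick1

open Matrix Filter Topology
open scoped ComplexOrder

namespace Pool.Agent.Results.MP_e3a8c8_an.Certificate

open Pool.Agent.Lib.H29.Pick

variable {X : Type*}

lemma schur_pos {I : Type*} [Fintype I] {N : ℕ} (hN : 1 ≤ N) {k l : X → X → ℂ} (hk : IsKernel k)
    (hl : IsKernel l) (hcp : IsCPPair k l) (z : X) (hz : l z z ≠ 0) (x : I → X)
    (α β : Matrix I (Fin N) ℂ) (h : (T k l x α β).PosSemidef) :
    (T (schur k z) (schur l z) x α β).PosSemidef := by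
  classical
  obtain ⟨Φ, h1, h2⟩ := tang hN hk hl hcp (Finset.univ.image x) I x α β h
    fun a => Or.inl (by simp)
  obtain ⟨g, -, hg1, hg2⟩ := ex_g hk z
  set x' : I ⊕ I → X := Sum.elim x fun _ => z with hx'
  set α' : Matrix (I ⊕ I) (Fin N) ℂ := fromRows α α with hα'
  set β' : Matrix (I ⊕ I) (Fin N) ℂ := Matrix.of fun a => α' a ᵥ* Φ (x' a) with hβ'
  have h3 := (compress h1 x' α').add
    (posSemidef_self_mul_conjTranspose (Matrix.of fun a t => g (x' a) * β' a t))
  have e : ∀ a b, (T k l x' α' β' + (Matrix.of fun a t => g (x' a) * β' a t)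
      * (Matrix.of fun a t => g (x' a) * β' a t)ᴴ) a b = l (x' a) (x' b) * (α' * α'ᴴ) a b
        - schur k z (x' a) (x' b) * (β' * β'ᴴ) a b := by
    intro a b
    have : ((Matrix.of fun a t => g (x' a) * β' a t) * (Matrix.of fun a t => g (x' a) * β' a t)ᴴ :
        Matrix _ _ ℂ) a b = g (x' a) * star (g (x' b)) * (β' * β'ᴴ) a b := by
      simp only [mul_apply, of_apply, conjTranspose_apply, star_mul', Finset.mul_sum]
      exact Finset.sum_congr rfl fun t _ => by ring
    rw [Matrix.add_apply, this, hg1]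
    simp only [T, of_apply]; ring
  have h4 := h3.mul_mul_conjTranspose_same
    (fromCols (1 : Matrix I I ℂ) (diagonal fun a => -(l (x a) z / l z z)))
  have s0 : ∀ y y', (y = z ∨ k y y = 0) ∨ (y' = z ∨ k y' y' = 0) → schur k z y y' = 0 :=
    fun y y' h => by rw [hg1, hg2 y y' h, sub_self]
  have hH : ∀ y y', (starRingEnd ℂ) (l y y') = l y' y := fun y y' => hl.1.apply y' y
  convert h4 using 1
  ext a b
  have hb : schur k z (x a) (x b) * (β' * β'ᴴ) (Sum.inl a) (Sum.inl b)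
      = schur k z (x a) (x b) * (β * βᴴ) a b := by
    by_cases hab : k (x a) (x a) = 0 ∨ k (x b) (x b) = 0
    · rw [s0 _ _ (by tauto), zero_mul, zero_mul]
    · push Not at hab
      rw [gram β', gram β, ← h2 a hab.1, ← h2 b hab.2]; rfl
  generalize T k l x' α' β' + (Matrix.of fun a t => g (x' a) * β' a t)
      * (Matrix.of fun a t => g (x' a) * β' a t)ᴴ = M at e
  have e1 : (fromCols (1 : Matrix I I ℂ) (diagonal fun a => -(l (x a) z / l z z)) * M *
      (fromCols (1 : Matrix I I ℂ) (diagonal fun a => -(l (x a) z / l z z)))ᴴ) a b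
      = (M (.inl a) (.inl b) - l (x a) z / l z z * M (.inr a) (.inl b))
        - (M (.inl a) (.inr b) - l (x a) z / l z z * M (.inr a) (.inr b)) * (l z (x b) / l z z) := by
    simp [mul_apply, one_apply, diagonal_apply, apply_ite (starRingEnd ℂ), hH]
    ring
  rw [e1, e, e, e, e]
  have g1 : ∀ p q : I ⊕ I, Sum.elim id id p = a → Sum.elim id id q = b →
      (α' * α'ᴴ) p q = (α * αᴴ) a b := by
    rintro (p | p) (q | q) rfl rfl <;> rfl
  rw [g1 _ _ rfl rfl, g1 (.inr a) _ rfl rfl, g1 _ (.inr b) rfl rfl, g1 (.inr a) (.inr b) rfl rfl]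
  simp only [hx', Sum.elim_inl, Sum.elim_inr]
  rw [hb, s0 z _ (by simp), s0 _ z (by simp), s0 z z (by simp)]
  simp only [T, of_apply]
  rw [schur.eq_1 l, if_neg hz]
  field_simp
  ring

lemma dual {κ : Type*} [Fintype κ] (S : Set (κ → ℂ)) (h0 : 0 ∈ S)
    (hadd : ∀ a ∈ S, ∀ b ∈ S, a + b ∈ S) (hs : ∀ t : ℝ, 0 ≤ t → ∀ a ∈ S, t • a ∈ S) (v : κ → ℂ)
    (h : ∀ c : κ → ℂ, (∀ b ∈ S, 0 ≤ (∑ q, c q * b q).re) → 0 ≤ (∑ q, c q * v q).re) :
    v ∈ closure S := by
  classical
  by_contra hv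
  have hc : Convex ℝ S := fun a ha b hb s t h1 h2 _ => hadd _ (hs s h1 a ha) _ (hs t h2 b hb)
  obtain ⟨f, u, h1, h2⟩ := RCLike.geometric_hahn_banach_point_closed (𝕜 := ℂ) hc.closure
    isClosed_closure hv
  have hf : ∀ b : κ → ℂ, f b = ∑ q, (f fun j => if q = j then 1 else 0) * b q := by
    intro b
    have := (f : (κ → ℂ) →ₗ[ℂ] ℂ).pi_apply_eq_sum_univ b
    simp only [smul_eq_mul, ContinuousLinearMap.coe_coe] at this
    rw [this]; exact Finset.sum_congr rfl fun q _ => mul_comm _ _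
  have hu : u < 0 := by simpa using h2 0 (subset_closure h0)
  have h3 := h (fun q => f fun j => if q = j then 1 else 0) fun b hb => by
    rw [← hf]
    by_contra hn
    push Not at hn
    have h4 := h2 _ (subset_closure (hs (u / (f b).re) (div_nonneg_of_nonpos hu.le hn.le) b hb))
    have h5 : f ((u / (f b).re) • b) = ((u / (f b).re : ℝ) : ℂ) * f b := by
      rw [← smul_eq_mul, ← map_smul]; rfl
    rw [h5] at h4
    simp only [RCLike.re_to_complex, Complex.re_ofReal_mul] at h4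
    rw [div_mul_cancel₀ _ hn.ne] at h4
    exact lt_irrefl _ h4
  rw [← hf] at h3
  simp only [RCLike.re_to_complex] at h1
  linarith

def pr {ι : Type*} [Fintype ι] (A M : Matrix ι ι ℂ) : ℂ := ∑ i, ∑ j, A i j * M i j

lemma psd_of_pr {ι : Type*} [Fintype ι] {A : Matrix ι ι ℂ} (hA : A.IsHermitian)
    (h : ∀ M : Matrix ι ι ℂ, M.PosSemidef → 0 ≤ (pr A M).re) : A.PosSemidef := by
  refine .of_dotProduct_mulVec_nonneg hA fun x => ?_
  have h1 := h _ (posSemidef_vecMulVec_star_self x)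
  have h2 : star x ⬝ᵥ A *ᵥ x = pr A (vecMulVec (star x) x) := by
    simp only [pr, dotProduct, mulVec, vecMulVec_apply, Finset.mul_sum]
    exact Finset.sum_congr rfl fun i _ => Finset.sum_congr rfl fun j _ => by ring
  refine Complex.le_def.2 ⟨by rw [h2]; exact h1, ?_⟩
  exact (hA.im_star_dotProduct_mulVec_self x).symm

lemma herm {ι : Type*} [Fintype ι] (A : Matrix ι ι ℂ) : ∃ B : Matrix ι ι ℂ, B.IsHermitian ∧
    ∀ M : Matrix ι ι ℂ, M.IsHermitian → (pr B M).re = 2 * (pr A M).re := by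
  refine ⟨A + Aᴴ, isHermitian_add_transpose_self A, fun M hM => ?_⟩
  have h1 : pr Aᴴ M = star (pr A M) := by
    simp only [pr, star_sum, star_mul', conjTranspose_apply, hM.apply]
    exact Finset.sum_comm
  have h2 : pr (A + Aᴴ) M = pr A M + pr Aᴴ M := by
    simp only [pr, Matrix.add_apply, add_mul, Finset.sum_add_distrib]
  rw [h2, h1, Complex.add_re, Complex.star_def, Complex.conj_re]; ring

lemma entry_le {ι : Type*} {M : Matrix ι ι ℂ} (h : M.PosSemidef) (i j : ι) :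
    ‖M i j‖ ≤ (M i i).re + (M j j).re := by
  obtain ⟨u, v, h1, h2, h3⟩ := gram2 h i j
  have e : ∀ u : Fin 2 → ℂ, (u ⬝ᵥ star u).re = ‖u 0‖ ^ 2 + ‖u 1‖ ^ 2 := fun u => by
    simp [dotProduct, Complex.mul_conj, Complex.normSq_eq_norm_sq, -Complex.ofReal_pow]
  rw [h1, h2, h3, e, e]
  have : ‖u ⬝ᵥ star v‖ ≤ ‖u 0‖ * ‖v 0‖ + ‖u 1‖ * ‖v 1‖ := by
    simp only [dotProduct, Fin.sum_univ_two, Pi.star_apply]
    refine (norm_add_le _ _).trans ?_
    simp
  nlinarith [sq_nonneg (‖u 0‖ - ‖v 0‖), sq_nonneg (‖u 1‖ - ‖v 1‖), sq_nonneg ‖u 0‖,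
    sq_nonneg ‖u 1‖, sq_nonneg ‖v 0‖, sq_nonneg ‖v 1‖]

lemma limit {ι κ : Type*} (U : Ultrafilter κ) (p b c : κ → Matrix ι ι ℂ) (B C L K : Matrix ι ι ℂ)
    (hL : ∀ i, 0 < L i i) (hb : ∀ i j, Tendsto (fun y => b y i j) U (𝓝 (B i j)))
    (hc : ∀ i j, Tendsto (fun y => c y i j) U (𝓝 (C i j)))
    (h : ∀ S : Finset ι, ∀ᶠ y in U, ((p y).submatrix (↑) (↑) : Matrix S S ℂ).PosSemidef ∧
      ((b y - p y ⊙ L).submatrix (↑) (↑) : Matrix S S ℂ).PosSemidef ∧
      ((c y + p y ⊙ K).submatrix (↑) (↑) : Matrix S S ℂ).PosSemidef) :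
    ∃ P : Matrix ι ι ℂ, P.PosSemidef ∧ (B - P ⊙ L).PosSemidef ∧ (C + P ⊙ K).PosSemidef := by
  classical
  have hd : ∀ i, ∃ R : ℝ, ∀ᶠ y in U, (p y i i).re ≤ R := by
    intro i
    obtain ⟨h1, h2⟩ := Complex.lt_def.1 (hL i)
    simp only [Complex.zero_re, Complex.zero_im] at h1 h2
    refine ⟨((B i i).re + 1) / (L i i).re, ?_⟩
    have h3 : ∀ᶠ y in U, (b y i i).re < (B i i).re + 1 :=
      ((Complex.continuous_re.tendsto _).comp (hb i i)).eventually_lt_const (lt_add_one _)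
    filter_upwards [h {i}, h3] with y hy h3
    have h4 := (Complex.le_def.1 (hy.2.1.diag_nonneg (i := ⟨i, by simp⟩))).1
    simp only [submatrix_apply, Matrix.sub_apply, hadamard_apply, Complex.zero_re, Complex.sub_re,
      Complex.mul_re, ← h2, mul_zero, sub_zero] at h4
    rw [le_div_iff₀ h1]; linarith
  have hl : ∀ i j, ∃ a, Tendsto (fun y => p y i j) U (𝓝 a) := by
    intro i j
    obtain ⟨R, hR⟩ := hd i
    obtain ⟨R', hR'⟩ := hd j
    obtain ⟨a, -, ha⟩ := (isCompact_closedBall (0 : ℂ) (R + R')).ultrafilter_le_nhds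
      (U.map fun y => p y i j) (by
        rw [le_principal_iff, Ultrafilter.coe_map, mem_map]
        filter_upwards [hR, hR', h {i, j}] with y h1 h2 h3
        have := entry_le h3.1 ⟨i, by simp⟩ ⟨j, by simp⟩
        simp only [submatrix_apply] at this
        simp only [Set.mem_preimage, mem_closedBall_zero_iff]
        linarith)
    exact ⟨a, ha⟩
  choose P hP using hl
  refine ⟨Matrix.of P, psd_of_fin _ fun S => ?_, psd_of_fin _ fun S => ?_,
    psd_of_fin _ fun S => ?_⟩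
  · exact psd_lim (U : Filter κ) _ _ (fun i j => hP i j) ((h S).mono fun y hy => hy.1)
  · exact psd_lim (U : Filter κ) _ _ (fun i j => (hb i j).sub ((hP i j).mul_const _))
      ((h S).mono fun y hy => hy.2.1)
  · exact psd_lim (U : Filter κ) _ _ (fun i j => (hc i j).add ((hP i j).mul_const _))
      ((h S).mono fun y hy => hy.2.2)

lemma sdp {ι : Type*} [Fintype ι] (B C L K : Matrix ι ι ℂ) (hL : ∀ i, 0 < L i i)
    (hB : B.IsHermitian) (hC : C.IsHermitian) (hL' : L.IsHermitian) (hK' : K.IsHermitian)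
    (h : ∀ A D : Matrix ι ι ℂ, A.PosSemidef → D.PosSemidef → (L ⊙ A - K ⊙ D).PosSemidef →
      (B ⊙ A + C ⊙ D).PosSemidef) :
    ∃ P : Matrix ι ι ℂ, P.PosSemidef ∧ (B - P ⊙ L).PosSemidef ∧ (C + P ⊙ K).PosSemidef := by
  classical
  let f1 : (ι × ι ⊕ ι × ι → ℂ) → Matrix ι ι ℂ := fun v => Matrix.of fun i j => v (.inl (i, j))
  let f2 : (ι × ι ⊕ ι × ι → ℂ) → Matrix ι ι ℂ := fun v => Matrix.of fun i j => v (.inr (i, j))
  let g : Matrix ι ι ℂ → Matrix ι ι ℂ → (ι × ι ⊕ ι × ι → ℂ) := fun M N =>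
    Sum.elim (fun q => M q.1 q.2) (fun q => N q.1 q.2)
  let S : Set (ι × ι ⊕ ι × ι → ℂ) := {v | ∃ P : Matrix ι ι ℂ, P.PosSemidef ∧
    (f1 v - P ⊙ L).PosSemidef ∧ (f2 v + P ⊙ K).PosSemidef}
  have hS : ∀ M N P : Matrix ι ι ℂ, P.PosSemidef → (M - P ⊙ L).PosSemidef →
      (N + P ⊙ K).PosSemidef → g M N ∈ S := fun M N P h1 h2 h3 => ⟨P, h1, h2, h3⟩
  have hsum : ∀ (c : ι × ι ⊕ ι × ι → ℂ) (M N : Matrix ι ι ℂ),
      ∑ q, c q * g M N q = pr (f1 c) M + pr (f2 c) N := by
    intro c M N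
    simp [Fintype.sum_sum_type, Fintype.sum_prod_type, pr, g, f1, f2]
  have hcl : g B C ∈ closure S := by
    refine dual S ⟨0, .zero, ?_, ?_⟩ ?_ ?_ _ fun c hc => ?_
    · rw [zero_hadamard, sub_zero]; exact .zero
    · rw [zero_hadamard, add_zero]; exact .zero
    · rintro a ⟨P, h1, h2, h3⟩ b ⟨Q, h4, h5, h6⟩
      refine ⟨P + Q, h1.add h4, ?_, ?_⟩
      · have e : f1 (a + b) - (P + Q) ⊙ L = (f1 a - P ⊙ L) + (f1 b - Q ⊙ L) := by
          ext i j; simp [f1]; ring
        rw [e]; exact h2.add h5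
      · have e : f2 (a + b) + (P + Q) ⊙ K = (f2 a + P ⊙ K) + (f2 b + Q ⊙ K) := by
          ext i j; simp [f2]; ring
        rw [e]; exact h3.add h6
    · rintro t ht a ⟨P, h1, h2, h3⟩
      have ht' : (0 : ℂ) ≤ t := by exact_mod_cast ht
      refine ⟨(t : ℂ) • P, h1.smul ht', ?_, ?_⟩
      · have e : f1 (t • a) - ((t : ℂ) • P) ⊙ L = (t : ℂ) • (f1 a - P ⊙ L) := by
          ext i j; simp [f1]; ring
        rw [e]; exact h2.smul ht'
      · have e : f2 (t • a) + ((t : ℂ) • P) ⊙ K = (t : ℂ) • (f2 a + P ⊙ K) := by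
          ext i j; simp [f2]; ring
        rw [e]; exact h3.smul ht'
    · obtain ⟨A, hA, hA'⟩ := herm (f1 c)
      obtain ⟨D, hD, hD'⟩ := herm (f2 c)
      have p0 : ∀ M : Matrix ι ι ℂ, pr M 0 = 0 := fun M => by simp [pr]
      have h1 : A.PosSemidef := psd_of_pr hA fun M hM => by
        have := hc _ (hS M 0 0 .zero (by simpa using hM) (by simpa using PosSemidef.zero))
        rw [hsum, p0, add_zero] at this
        rw [hA' M hM.1]; linarith
      have h2 : D.PosSemidef := psd_of_pr hD fun M hM => by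
        have := hc _ (hS 0 M 0 .zero (by simpa using PosSemidef.zero) (by simpa using hM))
        rw [hsum, p0, zero_add] at this
        rw [hD' M hM.1]; linarith
      have h3 : (L ⊙ A - K ⊙ D).PosSemidef :=
        psd_of_pr ((hL'.hadamard hA).sub (hK'.hadamard hD)) fun M hM => by
          have := hc _ (hS (M ⊙ L) (-(M ⊙ K)) M hM (by simpa using PosSemidef.zero)
            (by simpa using PosSemidef.zero))
          rw [hsum, Complex.add_re] at this
          have e : pr (L ⊙ A - K ⊙ D) M = pr A (M ⊙ L) + pr D (-(M ⊙ K)) := by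
            simp only [pr, ← Finset.sum_add_distrib, Matrix.sub_apply, hadamard_apply,
              Matrix.neg_apply]
            exact Finset.sum_congr rfl fun i _ => Finset.sum_congr rfl fun j _ => by ring
          rw [e, Complex.add_re, hA' _ (hM.1.hadamard hL'), hD' _ (hM.1.hadamard hK').neg]
          linarith
      have h4 := (Complex.le_def.1 ((h A D h1 h2 h3).dotProduct_mulVec_nonneg fun _ => 1)).1
      have e : star (fun _ : ι => (1 : ℂ)) ⬝ᵥ (B ⊙ A + C ⊙ D) *ᵥ (fun _ => 1)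
          = pr A B + pr D C := by
        simp only [pr, ← Finset.sum_add_distrib, dotProduct, mulVec, Pi.star_apply, star_one,
          one_mul, mul_one, Matrix.add_apply, hadamard_apply]
        exact Finset.sum_congr rfl fun i _ => Finset.sum_congr rfl fun j _ => by ring
      rw [e, Complex.add_re, hA' _ hB, hD' _ hC, Complex.zero_re] at h4
      rw [hsum, Complex.add_re]; linarith
  obtain ⟨U, hU, hU'⟩ := mem_closure_iff_ultrafilter.1 hcl
  have hex : ∀ v, ∃ P : Matrix ι ι ℂ, v ∈ S → P.PosSemidef ∧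
      (f1 v - P ⊙ L).PosSemidef ∧ (f2 v + P ⊙ K).PosSemidef := by
    intro v
    by_cases hv : v ∈ S
    · obtain ⟨P, hP⟩ := hv; exact ⟨P, fun _ => hP⟩
    · exact ⟨0, fun h => (hv h).elim⟩
  choose p hp using hex
  have ht : ∀ q, Tendsto (fun v : ι × ι ⊕ ι × ι → ℂ => v q) U (𝓝 (g B C q)) :=
    fun q => ((continuous_apply q).tendsto _).mono_left hU'
  refine limit U p f1 f2 B C L K hL (fun i j => ht (.inl (i, j))) (fun i j => ht (.inr (i, j)))
    fun F => ?_
  filter_upwards [hU] with v hv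
  exact ⟨(hp v hv).1.submatrix _, (hp v hv).2.1.submatrix _, (hp v hv).2.2.submatrix _⟩

lemma schur_herm {k : X → X → ℂ} (hk : IsKernel k) (z : X) :
    (Matrix.of (schur k z)).IsHermitian := by
  obtain ⟨g, -, hg, -⟩ := ex_g hk z
  have hH : ∀ y y', star (k y y') = k y' y := fun y y' => hk.1.apply y' y
  refine IsHermitian.ext fun i j => ?_
  simp only [of_apply, hg, star_sub, star_mul', star_star, hH, mul_comm]

lemma stage {k l : X → X → ℂ} (hk : IsKernel k) (hl : IsKernel l) (hd : ∀ x, l x x ≠ 0)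
    (hcp : IsCPPair k l) (z : X) (Y : Finset X) : ∃ P : Matrix X X ℂ,
      (P.submatrix (↑) (↑) : Matrix Y Y ℂ).PosSemidef ∧
      ((Matrix.of (schur l z) - P ⊙ Matrix.of l).submatrix (↑) (↑) : Matrix Y Y ℂ).PosSemidef ∧
      ((-Matrix.of (schur k z) + P ⊙ Matrix.of k).submatrix (↑) (↑) :
        Matrix Y Y ℂ).PosSemidef := by
  classical
  obtain ⟨P, h1, h2, h3⟩ := sdp (ι := Y) ((Matrix.of (schur l z)).submatrix (↑) (↑))
    ((-Matrix.of (schur k z)).submatrix (↑) (↑)) ((Matrix.of l).submatrix (↑) (↑))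
    ((Matrix.of k).submatrix (↑) (↑))
    (fun i => lt_of_le_of_ne (hl.diag_nonneg (i := i.1)) (hd _).symm)
    ((schur_herm hl z).submatrix _) ((schur_herm hk z).neg.submatrix _) (hl.1.submatrix _)
    (hk.1.submatrix _) (by
      intro A D hA hD h
      rcases isEmpty_or_nonempty Y with hY | hY
      · rw [Subsingleton.elim (_ + _) (0 : Matrix Y Y ℂ)]; exact .zero
      obtain ⟨α, rfl⟩ := factor hA
      obtain ⟨β, rfl⟩ := factor hD
      let e := (Fintype.equivFin Y).symm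
      have he : ∀ γ : Matrix Y Y ℂ, γ.submatrix id e * (γ.submatrix id e)ᴴ = γ * γᴴ := by
        intro γ
        rw [conjTranspose_submatrix, submatrix_mul_equiv, submatrix_id_id]
      have := schur_pos Fintype.card_pos hk hl hcp z (hd z) (Subtype.val : Y → X)
        (α.submatrix id e) (β.submatrix id e) (by
          unfold T
          rw [he, he]
          exact h)
      unfold T at this
      rw [he, he] at this
      convert this using 1
      ext i j
      simp [sub_eq_add_neg])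
  have e : (Matrix.of fun x y => if h : x ∈ Y ∧ y ∈ Y then P ⟨x, h.1⟩ ⟨y, h.2⟩ else 0 :
      Matrix X X ℂ).submatrix (↑) (↑) = P := by
    ext i j; simp
  refine ⟨Matrix.of fun x y => if h : x ∈ Y ∧ y ∈ Y then P ⟨x, h.1⟩ ⟨y, h.2⟩ else 0, ?_, ?_, ?_⟩
  · rw [e]; exact h1
  · rw [← e] at h2; exact h2
  · rw [← e] at h3; exact h3

theorem result {X : Type*} (k l : X → X → ℂ) (hk : IsKernel k) (hl : IsKernel l)
    (hd : ∀ x, l x x ≠ 0) (hcp : IsCPPair k l) : HasCertificate k l := by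
  classical
  have key : ∀ z, ∃ P : Matrix X X ℂ, P.PosSemidef ∧
      (Matrix.of (schur l z) - P ⊙ Matrix.of l).PosSemidef ∧
      (-Matrix.of (schur k z) + P ⊙ Matrix.of k).PosSemidef := by
    intro z
    choose p h1 h2 h3 using stage hk hl hd hcp z
    let U := Ultrafilter.of (atTop : Filter (Finset X))
    have hU : (U : Filter (Finset X)) ≤ atTop := Ultrafilter.of_le _
    refine limit U p (fun _ => Matrix.of (schur l z)) (fun _ => -Matrix.of (schur k z)) _ _ _ _
      (fun i => lt_of_le_of_ne (hl.diag_nonneg (i := i)) (hd _).symm)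
      (fun _ _ => tendsto_const_nhds) (fun _ _ => tendsto_const_nhds) fun S => ?_
    filter_upwards [hU (eventually_ge_atTop S)] with Y hY
    exact ⟨(h1 Y).submatrix fun i : S => (⟨i.1, hY i.2⟩ : Y),
      (h2 Y).submatrix fun i : S => (⟨i.1, hY i.2⟩ : Y),
      (h3 Y).submatrix fun i : S => (⟨i.1, hY i.2⟩ : Y)⟩
  choose P h1 h2 h3 using key
  refine ⟨fun z x y => P z x y, fun z => ⟨h1 z, h2 z, ?_⟩⟩
  have := h3 z
  rw [neg_add_eq_sub] at this
  exact this

end Pool.Agent.Results.MP_e3a8c8_an.Certificate
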