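import Pool.Agent.Lib.helper29.Pick1

open Matrix
open scoped ComplexOrder

namespace Pool.Agent.Results.MP_e3a8c8_an.Degenerate

open Pool.Agent.Lib.H29.Pick

def k : Fin 3 → Fin 3 → ℂ := ![![2, 1, 1], ![1, 2, 0], ![1, 0, 2]]
def l : Fin 3 → Fin 3 → ℂ := ![![2, 1, 0], ![1, 2, 0], ![0, 0, 0]]

lemma hk : IsKernel k := by
  have : Matrix.of k = (!![1, 1, 0, 0; 1, 0, 1, 0; 0, 1, 0, 1] : Matrix (Fin 3) (Fin 4) ℂ)
      * (!![1, 1, 0, 0; 1, 0, 1, 0; 0, 1, 0, 1] : Matrix (Fin 3) (Fin 4) ℂ)ᴴ := by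
    ext i j
    fin_cases i <;> fin_cases j <;> simp [k, mul_apply, Fin.sum_univ_four] <;> norm_num
  unfold IsKernel
  rw [this]; exact posSemidef_self_mul_conjTranspose _

lemma hl : IsKernel l := by
  have : Matrix.of l = (!![1, 1, 0; 1, 0, 1; 0, 0, 0] : Matrix (Fin 3) (Fin 3) ℂ)
      * (!![1, 1, 0; 1, 0, 1; 0, 0, 0] : Matrix (Fin 3) (Fin 3) ℂ)ᴴ := by
    ext i j
    fin_cases i <;> fin_cases j <;> simp [l, mul_apply, Fin.sum_univ_three] <;> norm_num
  unfold IsKernel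
  rw [this]; exact posSemidef_self_mul_conjTranspose _

lemma kd (a : Fin 3) : k a a = 2 := by fin_cases a <;> rfl

lemma same {n N : ℕ} {z : Fin n → Fin 3} {W : Fin n → Matrix (Fin N) (Fin N) ℂ}
    (h : (pick k l z W).PosSemidef) {i j : Fin n} (hij : z j = z i) : W j = W i := by
  have hT : (T k l (fun p : Fin n × Fin N => z p.1) (Matrix.of fun p => (1 : Matrix _ _ ℂ) p.2)
      (Matrix.of fun p => W p.1 p.2)).PosSemidef := by
    convert h using 1
    ext p q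
    have e1 : ((Matrix.of fun p : Fin n × Fin N => (1 : Matrix (Fin N) (Fin N) ℂ) p.2) *
        (Matrix.of fun p : Fin n × Fin N => (1 : Matrix (Fin N) (Fin N) ℂ) p.2)ᴴ) p q
        = ((1 : Matrix (Fin N) (Fin N) ℂ) * (1 : Matrix (Fin N) (Fin N) ℂ)ᴴ) p.2 q.2 := rfl
    simp only [T, pick, of_apply, e1, conjTranspose_one, Matrix.mul_one]
    rfl
  funext r
  have := consist hk _ _ _ hT (i, r) (by rw [kd]; norm_num) (fun s => (j, s)) fun s => ⟨hij, rfl⟩
  refine Eq.trans ?_ this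
  funext t
  simp [vecMul, dotProduct, one_apply]

lemma two {n N : ℕ} {z : Fin n → Fin 3} {W : Fin n → Matrix (Fin N) (Fin N) ℂ}
    (h : (pick k l z W).PosSemidef) {i : Fin n} (hi : z i = 2) : W i = 0 := by
  funext r
  have h1 := h.diag_nonneg (i := (i, r))
  simp only [pick, of_apply, hi, kd, Pool.Agent.Lib.H29.Pick.gram] at h1
  have h2 : l 2 2 = 0 := rfl
  rw [h2, zero_mul, zero_sub] at h1
  have h3 := dotProduct_self_star_nonneg (W i r)
  have h4 := le_antisymm (neg_nonneg.1 h1) (mul_nonneg (by norm_num) h3)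
  exact dotProduct_self_star_eq_zero.1 ((mul_eq_zero.1 h4).resolve_left two_ne_zero)

lemma build {n N : ℕ} {z : Fin n → Fin 3} {W : Fin n → Matrix (Fin N) (Fin N) ℂ}
    (h : (pick k l z W).PosSemidef) (i j : Fin n) (c : Matrix (Fin 3) (Fin 3) ℂ)
    (hc : c.PosSemidef) (h1 : ∀ a b, l a b = c a b * l (z (![i, j, i] a)) (z (![i, j, i] b)))
    (h2 : ∀ a b, l a b = c a b * k (z (![i, j, i] a)) (z (![i, j, i] b))) :
    IsContr k l ![W i, W j, 0] := by
  have h3 := (hc.submatrix (Prod.fst : Fin 3 × Fin N → Fin 3)).hadamard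
    (h.submatrix fun p : Fin 3 × Fin N => (![i, j, i] p.1, p.2))
  have e : pick k l id ![W i, W j, 0] = c.submatrix Prod.fst Prod.fst ⊙ (pick k l z W).submatrix
      (fun p : Fin 3 × Fin N => (![i, j, i] p.1, p.2))
      (fun p : Fin 3 × Fin N => (![i, j, i] p.1, p.2)) := by
    ext ⟨a, r⟩ ⟨b, s⟩
    simp only [pick, of_apply, hadamard_apply, submatrix_apply, id, mul_sub, ← mul_assoc,
      ← h1, ← h2]
    fin_cases a <;> fin_cases b <;> simp [k, l]
  unfold IsContr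
  rw [e]; exact h3

lemma cp : IsCPPair k l := by
  intro n N _ _ z W h
  have hc2 : ((2⁻¹ : ℂ) • Matrix.of l).PosSemidef := PosSemidef.smul hl (inv_nonneg.2 (by norm_num))
  have hc1 : (vecMulVec ![1, 1, 0] (star ![1, 1, 0]) : Matrix (Fin 3) (Fin 3) ℂ).PosSemidef :=
    posSemidef_vecMulVec_self_star _
  have fin : ∀ (m : Fin n) (A B : Matrix (Fin N) (Fin N) ℂ), (z m = 0 → A = W m) →
      (z m = 1 → B = W m) → ![A, B, 0] (z m) = W m := by
    intro m A B h0 h1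
    have h2 := @two _ _ _ _ h m
    generalize z m = a at h0 h1 h2
    fin_cases a
    exacts [h0 rfl, h1 rfl, (h2 rfl).symm]
  by_cases h0 : ∃ i, z i = 0 <;> by_cases h1 : ∃ j, z j = 1
  · obtain ⟨i, hi⟩ := h0
    obtain ⟨j, hj⟩ := h1
    refine ⟨_, build h i j _ hc1 (fun a b => ?_) (fun a b => ?_), fun m => fin m _ _
      (fun e => same h (hi.trans e.symm)) (fun e => same h (hj.trans e.symm))⟩ <;>
    fin_cases a <;> fin_cases b <;> simp [hi, hj, k, l, vecMulVec_apply]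
  · obtain ⟨i, hi⟩ := h0
    refine ⟨_, build h i i _ hc2 (fun a b => ?_) (fun a b => ?_), fun m => fin m _ _
      (fun e => same h (hi.trans e.symm)) (fun e => (h1 ⟨m, e⟩).elim)⟩ <;>
    fin_cases a <;> fin_cases b <;> simp [hi, k, l]
  · obtain ⟨i, hi⟩ := h1
    refine ⟨_, build h i i _ hc2 (fun a b => ?_) (fun a b => ?_), fun m => fin m _ _
      (fun e => (h0 ⟨m, e⟩).elim) (fun e => same h (hi.trans e.symm))⟩ <;>
    fin_cases a <;> fin_cases b <;> simp [hi, k, l]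
  · refine ⟨_, zero_contr hl, fun m => ?_⟩
    have := fin m 0 0 (fun e => (h0 ⟨m, e⟩).elim) (fun e => (h1 ⟨m, e⟩).elim)
    rw [← this]
    generalize z m = a
    fin_cases a <;> rfl

theorem result : ∃ k l : Fin 3 → Fin 3 → ℂ, IsKernel k ∧ IsKernel l ∧ (∀ x, k x x ≠ 0) ∧
    IsCPPair k l ∧ ¬ HasCertificate k l := by
  refine ⟨k, l, hk, hl, fun x => by rw [kd]; norm_num, cp, ?_⟩
  rintro ⟨p, hp⟩
  obtain ⟨-, h1, h2⟩ := hp 0
  have a1 := h1.diag_nonneg (i := 1)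
  have a2 := h2.diag_nonneg (i := 1)
  have e : schur l 0 1 1 - p 0 1 1 * l 1 1 = -(p 0 1 1 * k 1 1 - schur k 0 1 1) := by
    simp [schur, k, l]
  simp only [of_apply] at a1 a2
  rw [e] at a1
  have a3 := (row_zero h2 (i := 1) (le_antisymm (neg_nonneg.1 a1) a2) 2).1
  simp [schur, k] at a3

end Pool.Agent.Results.MP_e3a8c8_an.Degenerate
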